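import Mathlib

namespace Pool.Agent.Results.MP_ecebd1_co.Bip

noncomputable def sm {V : Type} (G : SimpleGraph V) : ℕ :=
  sInf {k | ∃ f : V → ℤ, Function.Injective f ∧ {z | ∃ u v, G.Adj u v ∧ z = f u + f v}.ncard = k}

noncomputable def df {V : Type} (G : SimpleGraph V) : ℕ :=
  sInf {k | ∃ f : V → ℤ, Function.Injective f ∧ {z | ∃ u v, G.Adj u v ∧ z = |f u - f v|}.ncard = k}

def T (s : ℕ) : SimpleGraph (Option (Fin s × Fin s)) := SimpleGraph.fromRel fun a b =>
  ∃ i j, b = some (i, j) ∧ a = if i = j then none else some (i, i)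

theorem a1 {s : ℕ} (i : Fin s) : (T s).Adj none (some (i, i)) :=
  ⟨by simp, Or.inl ⟨i, i, rfl, by simp⟩⟩

theorem a2 {s : ℕ} (i j : Fin s) (h : i ≠ j) : (T s).Adj (some (i, i)) (some (i, j)) :=
  ⟨by simp [h], Or.inl ⟨i, j, rfl, by simp [h]⟩⟩

def e (s : ℕ) (i : Fin s) : ℤ := 4 * s ^ 3 + 2 * s ^ 2 * i.val + i.val ^ 2

def lab (s : ℕ) : Option (Fin s × Fin s) → ℤ
  | none => 0
  | some (i, j) => if i = j then e s i else e s j - e s i

theorem sq_lt {s : ℕ} (i : Fin s) : (0 : ℤ) ≤ i.val ∧ (i.val : ℤ) + 1 ≤ s ∧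
    (0 : ℤ) ≤ (i.val : ℤ) ^ 2 ∧ (i.val : ℤ) ^ 2 < s ^ 2 ∧
    4 * (s : ℤ) ^ 3 ≤ e s i ∧ e s i < 8 * s ^ 3 := by
  have h : (i.val : ℤ) + 1 ≤ s := by exact_mod_cast i.2
  have h0 : (0 : ℤ) ≤ i.val := by positivity
  have h2 : (i.val : ℤ) ^ 2 < s ^ 2 := by nlinarith
  refine ⟨h0, h, by positivity, h2, ?_, ?_⟩ <;> unfold e
  · nlinarith [mul_nonneg (sq_nonneg (s : ℤ)) h0]
  · nlinarith [mul_le_mul_of_nonneg_left h (sq_nonneg (s : ℤ)), pow_pos (show (0 : ℤ) < s by omega) 3]

theorem sidon {s : ℕ} {a b c d : Fin s} (h : e s a + e s b = e s c + e s d) : a = c ∨ a = d := by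
  obtain ⟨-, -, a1, a2, -⟩ := sq_lt a
  obtain ⟨-, -, b1, b2, -⟩ := sq_lt b
  obtain ⟨-, -, c1, c2, -⟩ := sq_lt c
  obtain ⟨-, -, d1, d2, -⟩ := sq_lt d
  unfold e at h
  have h1 : (a.val : ℤ) + b.val = c.val + d.val := by
    by_contra hn
    rcases lt_or_gt_of_ne hn with h' | h' <;> nlinarith
  have h2 : (a.val : ℤ) ^ 2 + b.val ^ 2 = c.val ^ 2 + d.val ^ 2 := by
    linear_combination h - 2 * (s : ℤ) ^ 2 * h1
  have h3 : ((a.val : ℤ) - c.val) * (a.val - d.val) = 0 := by
    have hb : (b.val : ℤ) = c.val + d.val - a.val := by linarith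
    rw [hb] at h2
    nlinarith
  rcases mul_eq_zero.1 h3 with h | h
  · left; ext; omega
  · right; ext; omega

theorem e_inj {s : ℕ} {a b : Fin s} (h : e s a = e s b) : a = b :=
  (sidon (b := a) (c := b) (d := b) (by rw [h])).elim id id

theorem lab_inj (s : ℕ) : Function.Injective (lab s) := by
  rintro (_ | ⟨i, j⟩) (_ | ⟨k, l⟩) h
  · rfl
  · have := sq_lt k
    simp only [lab] at h
    split_ifs at h with h1
    · omega
    · exact (h1 (e_inj (by omega))).elim
  · have := sq_lt i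
    simp only [lab] at h
    split_ifs at h with h1
    · omega
    · exact (h1 (e_inj (by omega))).elim
  · have := sq_lt i
    have := sq_lt j
    have := sq_lt k
    have := sq_lt l
    simp only [lab] at h
    split_ifs at h with h1 h2 h2
    · rw [← h1, ← h2, e_inj h]
    · omega
    · omega
    · obtain rfl : j = l := ((sidon (show e s j + e s k = e s l + e s i by omega)).resolve_right
        (Ne.symm h1))
      rw [e_inj (show e s i = e s k by omega)]

theorem bip (s : ℕ) : (T s).IsBipartite := by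
  refine ⟨.mk (fun a => a.elim 0 fun p => if p.1 = p.2 then 1 else 0) ?_⟩
  rintro u v ⟨-, ⟨i, j, rfl, rfl⟩ | ⟨i, j, rfl, rfl⟩⟩ <;> by_cases h : i = j <;> simp [h]

theorem result (N : ℕ) : ∃ (V : Type) (_ : Fintype V) (G : SimpleGraph V),
    G ≠ ⊥ ∧ G.IsBipartite ∧ (N : ℤ) ≤ df G - ⌈(sm G : ℝ) / 2⌉ := by
  classical
  obtain ⟨t, ht⟩ : ∃ t, t = 3 * N + 60 := ⟨_, rfl⟩
  obtain ⟨s, hs⟩ : ∃ s, s = 2 * t := ⟨_, rfl⟩
  have fin : ∀ g : Option (Fin s × Fin s) → Option (Fin s × Fin s) → ℤ,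
      {z | ∃ u v, (T s).Adj u v ∧ z = g u v}.Finite := fun g =>
    (Set.finite_range (fun p : _ × _ => g p.1 p.2)).subset
      (by rintro _ ⟨u, v, -, rfl⟩; exact ⟨(u, v), rfl⟩)
  refine ⟨_, inferInstance, T s, fun h => ?_, bip s, ?_⟩
  · simpa [h] using a1 (⟨0, by omega⟩ : Fin s)
  have h1 : sm (T s) ≤ s := by
    refine le_trans (b := {z | ∃ u v, (T s).Adj u v ∧ z = lab s u + lab s v}.ncard)
      (Nat.sInf_le ⟨lab s, lab_inj s, rfl⟩) ?_
    refine (Set.ncard_le_ncard (t := Set.range (e s)) ?_ (Set.finite_range _)).trans ?_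
    · rintro _ ⟨u, v, ⟨-, ⟨i, j, rfl, rfl⟩ | ⟨i, j, rfl, rfl⟩⟩, rfl⟩ <;> refine ⟨j, ?_⟩ <;>
        by_cases h : i = j <;> simp [lab, h]
    · rw [Set.ncard_range_of_injective (fun _ _ => e_inj), Nat.card_eq_fintype_card,
        Fintype.card_fin]
  have h2 : ⌈(sm (T s) : ℝ) / 2⌉ ≤ t := by
    rw [Int.ceil_le, div_le_iff₀ (by norm_num)]
    exact_mod_cast (show sm (T s) ≤ t * 2 by omega)
  have h3 : 7 * t ≤ 5 * df (T s) := by
    obtain ⟨f, hf, hk⟩ := Nat.sInf_mem (s := {k | ∃ f : Option (Fin s × Fin s) → ℤ,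
      Function.Injective f ∧ {z | ∃ u v, (T s).Adj u v ∧ z = |f u - f v|}.ncard = k})
      ⟨_, lab s, lab_inj s, rfl⟩
    change _ = df (T s) at hk
    obtain ⟨D, hD⟩ := (fin (fun u v => |f u - f v|)).exists_finset_coe
    rw [← hD, Set.ncard_coe_finset] at hk
    let S := D ∪ D.image (fun x => -x)
    have cS : S.card ≤ 2 * D.card :=
      (Finset.card_union_le _ _).trans (by have := Finset.card_image_le (s := D) (f := fun x => -x); omega)
    have mS : ∀ u v, (T s).Adj u v → f v - f u ∈ S := by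
      intro u v h
      have : |f u - f v| ∈ D := by rw [← Finset.mem_coe, hD]; exact ⟨u, v, h, rfl⟩
      rcases abs_cases (f u - f v) with h | h
      · exact Finset.mem_union_right _ (Finset.mem_image.2 ⟨_, this, by omega⟩)
      · exact Finset.mem_union_left _ (by rwa [h.1, neg_sub] at this)
    have c := Finset.card_le_card_of_injOn (s := (Finset.univ : Finset (Fin s × Fin s)))
      (t := S ∪ S.sym2.image (Sym2.lift ⟨(· + ·), add_comm⟩)) (fun p => f (some p) - f none)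
      (fun p _ => ?_) (fun p _ q _ h => Option.some.inj (hf (sub_left_injective h)))
    · have c2 := Finset.card_union_le S (S.sym2.image (Sym2.lift ⟨(· + ·), add_comm⟩))
      have c3 := Finset.card_image_le (s := S.sym2) (f := Sym2.lift ⟨(· + ·), add_comm⟩)
      rw [Finset.card_sym2, Nat.choose_two_right] at c3
      simp only [Finset.card_univ, Fintype.card_prod, Fintype.card_fin, Nat.add_sub_cancel] at c c3
      have c4 : (S.card + 1) * S.card ≤ (2 * D.card + 1) * (2 * D.card) := by gcongr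
      have c5 : 2 * (s * s) ≤ 4 * D.card + (2 * D.card + 1) * (2 * D.card) := by omega
      rw [← hk]
      by_contra hn
      have : 5 * D.card ≤ 7 * t := by omega
      have : 60 ≤ t := by omega
      rw [hs] at c5
      nlinarith
    · obtain ⟨i, j⟩ := p
      by_cases h : i = j
      · subst h
        exact Finset.mem_union_left _ (mS _ _ (a1 i))
      · refine Finset.mem_union_right _ (Finset.mem_image.2
          ⟨s(f (some (i, i)) - f none, f (some (i, j)) - f (some (i, i))), ?_, by simp⟩)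
        exact Finset.mk_mem_sym2_iff.2 ⟨mS _ _ (a1 i), mS _ _ (a2 i j h)⟩
  omega

end Pool.Agent.Results.MP_ecebd1_co.Bip
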